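import Mathlib

set_option autoImplicit false

namespace Pool.Agent.Results.MP_664f87_an.NotCZDS

open Polynomial Finset

/-- number of non-real zeros, with multiplicity -/
noncomputable def Zc (f : ℝ[X]) : ℕ :=
  ((f.map (algebraMap ℝ ℂ)).roots.filter fun z => z.im ≠ 0).card

/-- the action of a sequence on polynomials -/
noncomputable def Gam (γ : ℕ → ℝ) (f : ℝ[X]) : ℝ[X] := f.sum fun k a => monomial k (γ k * a)

/-- complex zero decreasing sequence -/
def IsCZDS (γ : ℕ → ℝ) : Prop := ∀ f : ℝ[X], Zc (Gam γ f) ≤ Zc f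

lemma coeff_Gam (γ : ℕ → ℝ) (f : ℝ[X]) (k : ℕ) : (Gam γ f).coeff k = γ k * f.coeff k := by
  simp only [Gam, Polynomial.sum, finset_sum_coeff, coeff_monomial, sum_ite_eq', mem_support_iff]
  split_ifs with h
  · rfl
  · simp [not_not.1 h]

def cs : List ℤ := List.replicate 30 3 ++ [2, 0, -4, -10, -15, -10, 20, 94]

def a (i : ℕ) : ℚ := (∑ j ∈ range 38, cs.getD j 0 * (-1) ^ i * (j.choose i : ℚ)) / i.factorial

lemma neg : 1 + ∑ i ∈ range 38, ∑ j ∈ range 38,
    ((i + j).factorial : ℚ) / (1 + (i + j : ℕ) + (i + j : ℕ) ^ 2) * (a i * a j) < 0 := by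
  decide +kernel

theorem result : ¬ IsCZDS fun k => (1 + k + k ^ 2) / k.factorial := by
  intro h
  set p : ℝ[X] := ∑ i ∈ range 38, monomial i (a i : ℝ) with hp
  set δ : ℕ → ℝ := fun k => k.factorial / (1 + k + k ^ 2) with hδ
  set f := Gam δ (1 + p * p) with hf
  have hg : ∀ x, 0 < (1 + p * p).eval x := fun x => by
    simp only [eval_add, eval_one, eval_mul]; nlinarith [mul_self_nonneg (p.eval x)]
  have h1 : Gam (fun k => (1 + k + k ^ 2) / k.factorial) f = 1 + p * p := by
    ext k; rw [coeff_Gam, hf, coeff_Gam, hδ]; field_simp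
  have h2 : f.eval 1 < 0 := by
    have : f = 1 + ∑ i ∈ range 38, ∑ j ∈ range 38,
        monomial (i + j) (δ (i + j) * (a i * a j : ℝ)) := by
      ext k
      rw [hf, coeff_Gam, hp, sum_mul_sum]
      simp only [monomial_mul_monomial, coeff_add, mul_add,
        finset_sum_coeff, mul_sum, coeff_monomial, coeff_one]
      congr 1
      · split_ifs with h0 <;> simp [h0, hδ]
      · refine sum_congr rfl fun i _ => sum_congr rfl fun j _ => ?_
        split_ifs with h0
        · rw [h0]
        · simp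
    rw [this]
    simp only [eval_add, eval_one, eval_finset_sum, eval_monomial, one_pow, mul_one, hδ]
    have := (Rat.cast_lt (K := ℝ)).2 neg
    push_cast at this ⊢
    exact this
  have h3 : 0 < f.eval 0 := by
    rw [← coeff_zero_eq_eval_zero, hf, coeff_Gam, coeff_zero_eq_eval_zero]
    exact mul_pos (by simp [hδ]) (hg 0)
  obtain ⟨x, hx⟩ : ∃ x, f.eval x = 0 :=
    intermediate_value_univ 1 0 f.continuous ⟨h2.le, h3.le⟩
  have hf0 : f ≠ 0 := by rintro h0; simp [h0] at h3
  have h4 : Zc (1 + p * p) = (1 + p * p).natDegree := by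
    rw [Zc, Multiset.filter_eq_self.2, IsAlgClosed.card_roots_eq_natDegree, natDegree_map]
    intro z hz h0
    obtain ⟨y, rfl⟩ : ∃ y : ℝ, algebraMap ℝ ℂ y = z := ⟨z.re, Complex.ext (by simp) (by simp [h0])⟩
    have := isRoot_of_mem_roots hz
    rw [IsRoot, eval_map_algebraMap, aeval_algebraMap_apply_eq_algebraMap_eval] at this
    exact (hg y).ne' ((map_eq_zero _).1 this)
  have h5 : Zc f < f.natDegree := by
    rw [← natDegree_map (algebraMap ℝ ℂ), ← IsAlgClosed.card_roots_eq_natDegree]
    refine Multiset.card_lt_card (lt_of_le_of_ne (Multiset.filter_le _ _) fun h0 => ?_)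
    refine Multiset.filter_eq_self.1 h0 (algebraMap ℝ ℂ x) ?_ (by simp)
    rw [mem_roots (Polynomial.map_ne_zero hf0), IsRoot, eval_map_algebraMap,
      aeval_algebraMap_apply_eq_algebraMap_eval, hx, map_zero]
  have h6 : f.natDegree ≤ (1 + p * p).natDegree :=
    natDegree_le_iff_coeff_eq_zero.2 fun k hk => by
      rw [hf, coeff_Gam, coeff_eq_zero_of_natDegree_lt hk, mul_zero]
  have := h f
  rw [h1] at this
  omega

end Pool.Agent.Results.MP_664f87_an.NotCZDS
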